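import Pool.Agent.R94.LS.E
import Pool.Agent.R613.LS.LSA
import Pool.Agent.R254.LSB

set_option autoImplicit false

/-!
The geometric line-switching game: `F(P) ≥ |P| - c` for every noncollinear finite planar set `P`,
with an absolute constant `c`.
-/

namespace Pool.Agent.Results.MP_f8f66f_co.ConstantDeficit

open Pool.Agent.R94.LS

/-- There is an absolute constant `c` with `F(P) ≥ |P| - c` for every finite noncollinear set `P`
of points of the plane. -/
theorem result : ∃ c : ℕ, ∀ P : Finset (ℝ × ℝ),
    ¬ Collinear ℝ (P : Set (ℝ × ℝ)) → (P.card : ℤ) - c ≤ F P :=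
  main (stmtB_of_A Pool.Agent.R613.LSA.stmtA)

end Pool.Agent.Results.MP_f8f66f_co.ConstantDeficit
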